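import Mathlib
import Pool.Agent.Helper10.Gap.Kronecker

/-!
# A quantitative archimedean place of a countable field
-/

open Polynomial

universe u v

namespace Pool.Agent.Helper78.TL

/-- A countable field over `E` embeds into `ℂ` over `E`. -/
theorem exists_embedding {k : Type u} {E : Type v} [Field k] [Countable k] [Field E] [Algebra E k]
    [Algebra E ℂ] : Nonempty (k →ₐ[E] ℂ) := by
  classical
  haveI : Countable E := (FaithfulSMul.algebraMap_injective E k).countable
  obtain ⟨s, hs⟩ := exists_isTranscendenceBasis E k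
  obtain ⟨t, ht⟩ := exists_isTranscendenceBasis E ℂ
  have hE : Cardinal.mk E ≤ Cardinal.aleph0 := Cardinal.mk_le_aleph0
  have hC : Cardinal.aleph0 < Cardinal.mk ℂ := by
    rw [Cardinal.mk_complex]
    exact Cardinal.aleph0_lt_continuum
  have h1 := IsAlgClosed.cardinal_eq_cardinal_transcendence_basis_of_aleph0_lt _ ht hE hC
  have h2 : Cardinal.aleph0 < Cardinal.mk t := by
    have h3 : Cardinal.lift.{0} (Cardinal.mk ℂ) = Cardinal.lift.{0} (Cardinal.mk t) := h1
    rw [Cardinal.lift_inj] at h3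
    rwa [← h3]
  haveI : Infinite t := Cardinal.infinite_iff.2 h2.le
  obtain ⟨j, hj⟩ := exists_injective_nat s
  let i : s → t := fun a => Infinite.natEmbedding t (j a)
  have hi : Function.Injective i := (Infinite.natEmbedding t).injective.comp hj
  have hy : AlgebraicIndependent E (fun a : s => ((i a : t) : ℂ)) := ht.1.comp i hi
  let φ : IntermediateField.adjoin E (Set.range ((↑) : s → k)) →ₐ[E] ℂ :=
    (IntermediateField.val _).comp
      (hy.aevalEquivField.toAlgHom.comp hs.1.aevalEquivField.symm.toAlgHom)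
  letI : Algebra (IntermediateField.adjoin E (Set.range ((↑) : s → k))) ℂ :=
    φ.toRingHom.toAlgebra
  haveI : IsScalarTower E (IntermediateField.adjoin E (Set.range ((↑) : s → k))) ℂ :=
    IsScalarTower.of_algebraMap_eq fun x => (φ.commutes x).symm
  haveI := hs.isAlgebraic_field
  exact ⟨(IsAlgClosed.lift : k →ₐ[IntermediateField.adjoin E (Set.range ((↑) : s → k))]
    ℂ).restrictScalars E⟩

/-- Every complex root of the minimal polynomial is the image of the element. -/
theorem exists_embedding_root {k : Type u} [Field k] [CharZero k] [Countable k] (θ : k)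
    (h : IsIntegral ℚ θ) (z : ℂ) (hz : aeval z (minpoly ℚ θ) = 0) : ∃ τ : k →+* ℂ, τ θ = z := by
  let pb := IntermediateField.adjoin.powerBasis h
  have hgen : algebraMap (IntermediateField.adjoin ℚ {θ}) k pb.gen = θ := by
    have h1 : pb.gen = IntermediateField.AdjoinSimple.gen ℚ θ :=
      IntermediateField.adjoin.powerBasis_gen h
    rw [h1]
    rfl
  have hz' : aeval z (minpoly ℚ pb.gen) = 0 := by
    have h2 := minpoly.algebraMap_eq (A := ℚ)
      (algebraMap (IntermediateField.adjoin ℚ {θ}) k).injective pb.gen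
    rw [← h2, hgen]
    exact hz
  let σ : IntermediateField.adjoin ℚ {θ} →ₐ[ℚ] ℂ := pb.lift z hz'
  letI : Algebra (IntermediateField.adjoin ℚ {θ}) ℂ := σ.toRingHom.toAlgebra
  obtain ⟨τ⟩ := exists_embedding (k := k) (E := IntermediateField.adjoin ℚ {θ})
  refine ⟨τ.toRingHom, ?_⟩
  have h3 : τ (algebraMap (IntermediateField.adjoin ℚ {θ}) k pb.gen) = z := by
    rw [τ.commutes]
    exact pb.lift_gen z hz'
  rw [hgen] at h3
  exact h3

theorem exists_arch_place {k : Type u} [Field k] [CharZero k] [Countable k] (θ : k) (D : ℕ)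
    (h1 : IsIntegral ℤ θ) (h2 : IsIntegral ℤ θ⁻¹) (hθ : θ ≠ 0)
    (hdeg : (minpoly ℚ θ).natDegree ≤ D) (hroot : ∀ n, 0 < n → θ ^ n ≠ 1) :
    ∃ τ : k →+* ℂ, 2 ≤ ‖τ θ‖ ^ (16 * D ^ 2) := by
  classical
  by_contra hno
  push Not at hno
  have hQ : IsIntegral ℚ θ := h1.tower_top
  have hmap : minpoly ℚ θ = (minpoly ℤ θ).map (algebraMap ℤ ℚ) :=
    minpoly.isIntegrallyClosed_eq_field_fractions' ℚ h1
  have hdeg2 : (minpoly ℤ θ).natDegree ≤ D := by
    rw [hmap, (minpoly.monic h1).natDegree_map] at hdeg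
    exact hdeg
  let pb := Algebra.adjoin.powerBasis' h1
  have hdim : pb.dim = (minpoly ℤ θ).natDegree := Algebra.adjoin.powerBasis'_dim h1
  have hmin : minpoly ℤ pb.gen = minpoly ℤ θ := by
    have h3 := Algebra.adjoin.powerBasis'_minpoly_gen h1
    exact h3.symm
  let P : Matrix (Fin pb.dim) (Fin pb.dim) ℤ := Algebra.leftMulMatrix pb.basis pb.gen
  have hchar : P.charpoly = minpoly ℤ θ := by
    rw [← hmin]
    exact charpoly_leftMulMatrix pb
  have hspec : ∀ z ∈ spectrum ℂ (P.map (Int.castRingHom ℂ)), ∃ τ : k →+* ℂ, τ θ = z := by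
    intro z hz
    rw [Matrix.mem_spectrum_iff_isRoot_charpoly, Matrix.charpoly_map, hchar] at hz
    refine exists_embedding_root θ hQ z ?_
    rw [hmap, aeval_map_algebraMap]
    rw [aeval_def, ← eval_map]
    exact hz
  have hsmall : ∀ z ∈ spectrum ℂ (P.map (Int.castRingHom ℂ)), ‖z‖ ^ (16 * pb.dim ^ 2) < 2 := by
    intro z hz
    obtain ⟨τ, rfl⟩ := hspec z hz
    by_contra hbig
    push Not at hbig
    have h4 : 1 ≤ ‖τ θ‖ := by
      by_contra h5
      push Not at h5
      have h6 : ‖τ θ‖ ^ (16 * pb.dim ^ 2) ≤ 1 := pow_le_one₀ (norm_nonneg _) h5.le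
      linarith
    have h5 : ‖τ θ‖ ^ (16 * pb.dim ^ 2) ≤ ‖τ θ‖ ^ (16 * D ^ 2) := by
      refine pow_le_pow_right₀ h4 ?_
      have : pb.dim ≤ D := by omega
      gcongr
    have h6 := hno τ
    linarith
  have hkron := Pool.Agent.Helper10.Gap.kronecker_quant P hsmall
  have hne : ∃ z, z ∈ spectrum ℂ (P.map (Int.castRingHom ℂ)) := by
    have hd : 0 < (minpoly ℤ θ).natDegree := minpoly.natDegree_pos h1
    obtain ⟨z, hz⟩ := IsAlgClosed.exists_root ((minpoly ℤ θ).map (Int.castRingHom ℂ)) (by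
      rw [degree_map_eq_of_injective (RingHom.injective_int _)]
      exact (natDegree_pos_iff_degree_pos.1 hd).ne')
    refine ⟨z, ?_⟩
    rw [Matrix.mem_spectrum_iff_isRoot_charpoly, Matrix.charpoly_map, hchar]
    exact hz
  obtain ⟨z, hz⟩ := hne
  obtain ⟨τ, rfl⟩ := hspec z hz
  rcases hkron _ hz with h | ⟨n, hn, h⟩
  · exact hθ ((map_eq_zero τ).1 h)
  · refine hroot n hn (τ.injective ?_)
    rw [map_pow, h, map_one]

end Pool.Agent.Helper78.TL
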